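import Mathlib
import Pool.Agent.Helper28.VF.Pub
import Pool.Agent.Helper28.VF.Final
import Pool.Agent.Helper27.VF.Lower

/-!
The optimal constant for vertex-face walks in `3`-connected planar graphs is `2`, with a walk that
follows a spanning tree.
-/

namespace Pool.Agent.Results.MP_8b6ec2_co.ExactValueTwo

open Helper28.VF

/-- `2` is the least `c >= 1` such that every `3`-connected plane graph has a vertex-face walk
visiting every vertex and every face between `1` and `c` times; moreover every `3`-connected plane
graph has such a walk with `c = 2` which is closed and a spanning tree `T` such that every vertex is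
visited at least once for each interval of edges outside `T` around it, and every face at least once
for each interval of edges of `T` on its boundary (so there are at most two such intervals). -/
theorem result :
    IsLeast {c : ℕ | 1 ≤ c ∧ ∀ (V : Type) [Finite V] (G : SimpleGraph V) (R : Rotation G),
      ThreeConnected G → R.Planar → ∃ w, R.CoveringWalk c w} 2 ∧
    ∀ (V : Type) [Finite V] (G : SimpleGraph V) (R : Rotation G), ThreeConnected G → R.Planar →
      ∃ (w : List (V ⊕ R.Face)) (T : SimpleGraph V), R.CoveringWalk 2 w ∧ R.Closed w ∧
        T ≤ G ∧ T.IsTree ∧ (∀ v, coIntervals R T v ≤ visits w (Sum.inl v)) ∧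
        (∀ f, treeIntervals R T f ≤ visits w (Sum.inr f)) := by
  refine ⟨⟨⟨by norm_num, fun V _ G R h3 hp => ?_⟩, ?_⟩, fun V _ G R h3 hp => main_R G R h3 hp⟩
  · obtain ⟨w, T, h1, _⟩ := main_R G R h3 hp
    exact ⟨w, h1⟩
  · rintro c ⟨hc, h⟩
    obtain ⟨G, R, h3, hp, hn⟩ := Pool.Agent.Helper27.VF.stmtLower
    by_contra hlt
    have hc1 : c = 1 := by omega
    subst hc1
    exact hn (h (Fin 6) G R h3 hp)

end Pool.Agent.Results.MP_8b6ec2_co.ExactValueTwo
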